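import Pool.Agent.K1H27.PL.Stm

/-! Project PL of helper27: measurable selection of eigenvectors of approximable operators. -/

set_option autoImplicit false

namespace Pool.Agent.K1H38.PL

open MeasureTheory Set Metric Filter Topology
open scoped ENNReal NNReal
open Pool.Agent.K1H27.PL (S_SELM S_SEL)

/-- If `1 - K J` has a two-sided inverse then so has `1 - J K`. -/
theorem isUnit_of_swap {E X : Type} [NormedAddCommGroup E] [NormedSpace ℂ E]
    [NormedAddCommGroup X] [NormedSpace ℂ X] (J : X →L[ℂ] E) (K : E →L[ℂ] X) (S : X →L[ℂ] X)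
    (h1 : ∀ v, S v - K (J (S v)) = v) (h2 : ∀ v, S (v - K (J v)) = v) :
    IsUnit (1 - J.comp K : E →L[ℂ] E) := by
  refine ⟨⟨1 - J.comp K, 1 + J.comp (S.comp K), ?_, ?_⟩, rfl⟩
  · ext x
    have h := h1 (K x)
    have h' : J (S (K x)) - J (K (J (S (K x)))) = J (K x) := by rw [← map_sub, h]
    show (x + J (S (K x))) - J (K (x + J (S (K x)))) = x
    rw [map_add, map_add, ← h']
    abel
  · ext x
    have h := h2 (K x)
    show (x - J (K x)) + J (S (K (x - J (K x)))) = x
    rw [map_sub K, h]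
    abel

theorem t_SEL (h : S_SELM) : S_SEL := by
  intro E _ _ _ U H hU hH happ Z hZ hZU hvol hnu
  obtain ⟨z0, hz0, hpos⟩ := exists_mem_forall_mem_nhdsWithin_pos_measure (μ := volume) hvol.ne'
  obtain ⟨F, hF, hFn⟩ := happ z0 (hZU hz0) (1 / 2) (by norm_num)
  have hcont : ContinuousAt H z0 := hH.continuousAt (hU.mem_nhds (hZU hz0))
  obtain ⟨r, hr, hrV⟩ : ∃ r > 0, ∀ z ∈ ball z0 r, z ∈ U ∧ ‖H z - H z0‖ < 1 / 4 := by
    have h1 : ∀ᶠ z in 𝓝 z0, z ∈ U ∧ ‖H z - H z0‖ < 1 / 4 := by
      refine (hU.eventually_mem (hZU hz0)).and ?_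
      have := Metric.tendsto_nhds.1 hcont (1 / 4) (by norm_num)
      simpa only [dist_eq_norm] using this
    obtain ⟨r, hr, hsub⟩ := Metric.eventually_nhds_iff_ball.1 h1
    exact ⟨r, hr, hsub⟩
  set V : Set ℂ := ball z0 r with hVdef
  have hVm : MeasurableSet V := measurableSet_ball
  let B : ℂ → (E →L[ℂ] E) := fun z => 1 - (H z - F)
  have hBn : ∀ z ∈ V, ‖H z - F‖ < 1 := by
    intro z hz
    have e : H z - F = (H z - H z0) + (H z0 - F) := by abel
    have h1 := (hrV z hz).2
    calc ‖H z - F‖ ≤ ‖H z - H z0‖ + ‖H z0 - F‖ := by rw [e]; exact norm_add_le _ _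
      _ < 1 := by linarith
  have hBu : ∀ z ∈ V, IsUnit (B z) := fun z hz => ⟨Units.oneSub (H z - F) (hBn z hz), rfl⟩
  let T : ℂ → (E →L[ℂ] E) := fun z => Ring.inverse (B z)
  have hBT : ∀ z ∈ V, ∀ x, B z (T z x) = x := by
    intro z hz x
    have h1 := Ring.mul_inverse_cancel (B z) (hBu z hz)
    have h2 := congrArg (fun L : E →L[ℂ] E => L x) h1
    exact h2
  have hTB : ∀ z ∈ V, ∀ x, T z (B z x) = x := by
    intro z hz x
    have h1 := Ring.inverse_mul_cancel (B z) (hBu z hz)
    have h2 := congrArg (fun L : E →L[ℂ] E => L x) h1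
    exact h2
  have hTc : ContinuousOn T V := by
    intro z hz
    have h1 : ContinuousAt (Ring.inverse : (E →L[ℂ] E) → (E →L[ℂ] E)) (B z) := by
      obtain ⟨u, hu⟩ := hBu z hz
      rw [← hu]
      exact NormedRing.inverse_continuousAt u
    have h2 : ContinuousWithinAt B V z := by
      have h3 : ContinuousWithinAt H V z :=
        (hH z (hrV z hz).1).mono fun w hw => (hrV w hw).1
      exact continuousWithinAt_const.sub (h3.sub continuousWithinAt_const)
    exact h1.comp_continuousWithinAt h2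
  -- the finite dimensional space
  let Y : Submodule ℂ E := LinearMap.range (F : E →ₗ[ℂ] E)
  have : FiniteDimensional ℂ Y := hF
  let n : ℕ := Module.finrank ℂ Y
  let e : Y ≃L[ℂ] (Fin n → ℂ) := (Module.finBasis ℂ Y).equivFunL
  let F' : E →L[ℂ] Y := F.codRestrict Y fun x => ⟨x, rfl⟩
  let J : (Fin n → ℂ) →L[ℂ] E := Y.subtypeL.comp (e.symm : (Fin n → ℂ) →L[ℂ] Y)
  let K0 : E →L[ℂ] (Fin n → ℂ) := (e : Y →L[ℂ] (Fin n → ℂ)).comp F'
  have hJK : ∀ x, J (K0 x) = F x := by
    intro x
    show ((e.symm (e (F' x)) : Y) : E) = F x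
    rw [e.symm_apply_apply]
    rfl
  have hJinj : ∀ v, J v = 0 → v = 0 := by
    intro v hv
    have h1 : (e.symm v : Y) = 0 := Subtype.ext hv
    exact e.symm.map_eq_zero_iff.1 h1
  let K : ℂ → (E →L[ℂ] (Fin n → ℂ)) := fun z => K0.comp (T z)
  let A : ℂ → ((Fin n → ℂ) →L[ℂ] (Fin n → ℂ)) := fun z => (K z).comp J
  let M : ℂ → Matrix (Fin n) (Fin n) ℂ := fun z =>
    1 - LinearMap.toMatrix' ((A z : (Fin n → ℂ) →L[ℂ] (Fin n → ℂ)) : (Fin n → ℂ) →ₗ[ℂ] (Fin n → ℂ))
  have hMv : ∀ z v, (M z).mulVec v = v - A z v := by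
    intro z v
    show (1 - LinearMap.toMatrix' _ : Matrix (Fin n) (Fin n) ℂ).mulVec v = _
    rw [Matrix.sub_mulVec, Matrix.one_mulVec]
    congr 1
    exact LinearMap.toMatrix'_mulVec _ v
  have hMc : ContinuousOn M V := by
    refine continuousOn_const.sub ?_
    refine continuousOn_pi.2 fun i => continuousOn_pi.2 fun j => ?_
    have h1 : ∀ z, LinearMap.toMatrix' ((A z : (Fin n → ℂ) →L[ℂ] (Fin n → ℂ)) :
        (Fin n → ℂ) →ₗ[ℂ] (Fin n → ℂ)) i j = K0 (T z (J (Pi.single j 1))) i := by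
      intro z
      rw [LinearMap.toMatrix'_apply]
      rfl
    simp_rw [h1]
    have h2 : ContinuousOn (fun z => T z (J (Pi.single j 1))) V :=
      hTc.clm_apply continuousOn_const
    have h3 : Continuous fun x : E => K0 x i := (continuous_apply i).comp K0.continuous
    exact h3.comp_continuousOn h2
  have hH1 : ∀ z x, H z x = x - B z x + F x := by
    intro z x
    show H z x = x - (x - (H z x - F x)) + F x
    abel
  have hdet : ∀ z ∈ Z ∩ V, (M z).det = 0 := by
    rintro z ⟨hzZ, hzV⟩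
    by_contra hne
    apply hnu z hzZ
    have hu : IsUnit (M z).det := isUnit_iff_ne_zero.2 hne
    let S : (Fin n → ℂ) →L[ℂ] (Fin n → ℂ) :=
      LinearMap.toContinuousLinearMap (Matrix.mulVecLin ((M z)⁻¹))
    have hS : ∀ v, S v = ((M z)⁻¹).mulVec v := fun v => rfl
    have key : IsUnit (1 - J.comp (K z) : E →L[ℂ] E) := by
      refine isUnit_of_swap J (K z) S (fun v => ?_) (fun v => ?_)
      · have h1 := hMv z (S v)
        have h2 : (M z).mulVec (S v) = v := by
          rw [hS, Matrix.mulVec_mulVec, Matrix.mul_nonsing_inv _ hu, Matrix.one_mulVec]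
        rw [h2] at h1
        exact h1.symm
      · have h1 := hMv z v
        have h2 : v - K z (J v) = (M z).mulVec v := h1.symm
        rw [h2, hS, Matrix.mulVec_mulVec, Matrix.nonsing_inv_mul _ hu, Matrix.one_mulVec]
    have e2 : (1 - H z : E →L[ℂ] E) = (1 - J.comp (K z)) * B z := by
      ext x
      show x - H z x = B z x - J (K0 (T z (B z x)))
      rw [hTB z hzV, hJK, hH1]
      abel
    rw [e2]
    exact key.mul (hBu z hzV)
  have hvol2 : 0 < volume (Z ∩ V) := by
    apply hpos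
    exact inter_mem self_mem_nhdsWithin (mem_nhdsWithin_of_mem_nhds (ball_mem_nhds z0 hr))
  obtain ⟨y, hy1, hy2, hy3, hy4, hy5⟩ := h n M (Z ∩ V) (hZ.inter hVm)
    (hMc.mono inter_subset_right) hdet hvol2
  let w : ℂ → E := fun z => T z (J (y z))
  have hw0 : ∀ z, z ∉ Z ∩ V → w z = 0 := by
    intro z hz
    show T z (J (y z)) = 0
    rw [hy3 z hz, map_zero, map_zero]
  have hwm : StronglyMeasurable w := by
    refine stronglyMeasurable_of_restrict_of_restrict_compl hVm ?_ ?_
    · have h1 : Vᶜ.domRestrict w = Vᶜ.domRestrict w := rfl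
      have h2 : V.domRestrict w = fun z : V => ∑ j, y z.1 j • T z.1 (J (Pi.single j 1)) := by
        funext z
        show T z.1 (J (y z.1)) = _
        have h3 : y z.1 = ∑ j, y z.1 j • (Pi.single j (1 : ℂ) : Fin n → ℂ) := by
          funext i
          simp [Finset.sum_apply, Pi.single_apply]
        conv_lhs => rw [h3]
        rw [map_sum, map_sum]
        refine Finset.sum_congr rfl fun j _ => ?_
        rw [map_smul, map_smul]
      rw [h2]
      refine Finset.stronglyMeasurable_fun_sum _ fun j _ => ?_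
      refine StronglyMeasurable.smul ?_ ?_
      · exact (((measurable_pi_apply j).comp hy1).comp measurable_subtype_coe).stronglyMeasurable
      · have h4 : Continuous fun z : V => T z.1 (J (Pi.single j 1)) := by
          have h5 : ContinuousOn (fun z => T z (J (Pi.single j 1))) V :=
            hTc.clm_apply continuousOn_const
          exact continuousOn_iff_continuous_domRestrict.1 h5
        exact h4.stronglyMeasurable
    · have h2 : Vᶜ.domRestrict w = fun _ => 0 := by
        funext z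
        exact hw0 z.1 fun hz => z.2 hz.2
      rw [h2]
      exact stronglyMeasurable_const
  have hHw : ∀ z, H z (w z) = w z := by
    intro z
    by_cases hz : z ∈ Z ∩ V
    · have h1 := hy4 z hz
      rw [hMv] at h1
      have h2 : y z = K0 (w z) := sub_eq_zero.1 h1
      have h3 : B z (w z) = J (y z) := hBT z hz.2 _
      rw [hH1, h3, ← hJK (w z), ← h2]
      abel
    · rw [hw0 z hz, map_zero]
  have hwne : ∀ z, y z ≠ 0 → w z ≠ 0 := by
    intro z hz h0
    have hzV : z ∈ Z ∩ V := by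
      by_contra hc
      exact hz (hy3 z hc)
    apply hz
    apply hJinj
    rw [← hBT z hzV.2 (J (y z))]
    show B z (w z) = 0
    rw [h0, map_zero]
  refine ⟨fun z => ((1 + ‖w z‖)⁻¹ : ℂ) • w z, ?_, fun z => ?_, fun z hz => ?_, fun z => ?_, ?_⟩
  · refine StronglyMeasurable.smul ?_ hwm
    have h1 : Measurable fun z => ‖w z‖ := hwm.norm.measurable
    exact ((measurable_const.add (Complex.measurable_ofReal.comp h1)).inv).stronglyMeasurable
  · have h1 : ‖((1 + (‖w z‖ : ℂ))⁻¹ : ℂ)‖ = (1 + ‖w z‖)⁻¹ := by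
      rw [norm_inv]
      congr 1
      have : (1 + (‖w z‖ : ℂ)) = ((1 + ‖w z‖ : ℝ) : ℂ) := by push_cast; ring
      rw [this, Complex.norm_real, Real.norm_of_nonneg (by positivity)]
    rw [norm_smul, h1]
    have h2 : 0 < 1 + ‖w z‖ := by positivity
    rw [inv_mul_le_iff₀ h2]
    linarith
  · show _ • w z = 0
    rw [hw0 z fun hc => hz hc.1, smul_zero]
  · rw [map_smul, hHw]
  · refine lt_of_lt_of_le hy5 (measure_mono fun z hz => ?_)
    have h1 := hwne z hz
    show ((1 + (‖w z‖ : ℂ))⁻¹ : ℂ) • w z ≠ 0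
    refine smul_ne_zero (inv_ne_zero ?_) h1
    have : (1 + (‖w z‖ : ℂ)) = ((1 + ‖w z‖ : ℝ) : ℂ) := by push_cast; ring
    rw [this]
    exact Complex.ofReal_ne_zero.2 (by positivity)

end Pool.Agent.K1H38.PL
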